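import Mathlib

set_option autoImplicit false
set_option linter.unusedSimpArgs false

/-!
Every `{P₄ + P₁, C₄}`-free graph `G` has a clique `K` such that `G - K` is chordal.

Outline.  If `G` contains an induced five-cycle `v₁ … v₅`, every vertex is complete to the
cycle (class `A`), or looks like a copy of some `vᵢ` (class `Tᵢ`), or is adjacent to exactly two
consecutive vertices `vᵢ, vᵢ₊₁` (class `Bᵢ`).  At most two classes `Bᵢ` are nonempty and two
nonempty ones are consecutive.  If only `B₁` may be nonempty, `K = T₄ ∪ A` works; if `B₁` and `B₂`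
are nonempty, `K = T₂ ∪ B₁ ∪ B₂` works.  If there is no induced five-cycle but an induced
six-cycle, the graph is a blow-up of the six-cycle by cliques together with the clique `A`,
and `K = T₁ ∪ A` works.  Otherwise `G` itself is chordal.
-/

namespace Pool.Agent.Results.MP_e9ad42_co.CliqueChordal

open SimpleGraph

universe u
variable {V : Type u} {G : SimpleGraph V}

/-- Elementary form of being `P₄ + P₁`-free. -/
def NoP (G : SimpleGraph V) : Prop :=
  ∀ a b c d e : V, G.Adj a b → G.Adj b c → G.Adj c d → ¬ G.Adj a c → ¬ G.Adj a d → ¬ G.Adj b d →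
    ¬ G.Adj e a → ¬ G.Adj e b → ¬ G.Adj e c → ¬ G.Adj e d → False

/-- Elementary form of being `C₄`-free. -/
def NoC (G : SimpleGraph V) : Prop :=
  ∀ a b c d : V, a ≠ c → b ≠ d → G.Adj a b → G.Adj b c → G.Adj c d → G.Adj d a →
    ¬ G.Adj a c → ¬ G.Adj b d → False

lemma noP_of (h : ¬ (pathGraph 4 ⊕g pathGraph 1).IsIndContained G) : NoP G := by
  intro a b c d e hab hbc hcd hac had hbd hea heb hec hed
  apply h
  have hac' : a ≠ c := by rintro rfl; exact had hcd
  have had' : a ≠ d := by rintro rfl; exact hbd hab.symm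
  have hbd' : b ≠ d := by rintro rfl; exact had hab
  have hea' : e ≠ a := by rintro rfl; exact heb hab
  have heb' : e ≠ b := by rintro rfl; exact hea hab.symm
  have hec' : e ≠ c := by rintro rfl; exact heb hbc.symm
  have hed' : e ≠ d := by rintro rfl; exact hec hcd.symm
  refine ⟨⟨⟨Sum.elim ![a, b, c, d] ![e], ?_⟩, ?_⟩⟩
  · rintro (i | i) (j | j) hij
    · fin_cases i <;> fin_cases j <;> simp_all [hab.ne, hbc.ne, hcd.ne, hab.ne', hbc.ne', hcd.ne',
        hac'.symm, had'.symm, hbd'.symm]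
    · fin_cases i <;> fin_cases j <;> simp_all [hea'.symm, heb'.symm, hec'.symm, hed'.symm]
    · fin_cases i <;> fin_cases j <;> simp_all [hea'.symm, heb'.symm, hec'.symm, hed'.symm]
    · fin_cases i <;> fin_cases j <;> simp_all
  · intro x y
    show G.Adj (Sum.elim ![a, b, c, d] ![e] x) (Sum.elim ![a, b, c, d] ![e] y) ↔ _
    rcases x with i | i <;> rcases y with j | j
    · fin_cases i <;> fin_cases j <;>
        simp [pathGraph_adj, hab, hbc, hcd, hac, had, hbd, hab.symm, hbc.symm, hcd.symm,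
          G.adj_comm c a, G.adj_comm d a, G.adj_comm d b]
    · fin_cases i <;> fin_cases j <;>
        simp [G.adj_comm a e, G.adj_comm b e, G.adj_comm c e, G.adj_comm d e, hea, heb, hec, hed]
    · fin_cases i <;> fin_cases j <;> simp [hea, heb, hec, hed]
    · fin_cases i <;> fin_cases j <;> simp [pathGraph_adj]

lemma noC_of (h : ¬ (cycleGraph 4).IsIndContained G) : NoC G := by
  intro a b c d hac' hbd' hab hbc hcd hda hac hbd
  apply h
  have hca : ¬ G.Adj c a := fun h => hac h.symm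
  have hdb : ¬ G.Adj d b := fun h => hbd h.symm
  refine ⟨⟨⟨![a, b, c, d], ?_⟩, ?_⟩⟩
  · intro i j hij
    fin_cases i <;> fin_cases j <;> simp_all [hab.ne, hbc.ne, hcd.ne, hda.ne, hab.ne', hbc.ne',
      hcd.ne', hda.ne', hac'.symm, hbd'.symm]
  · intro i j
    show G.Adj (![a, b, c, d] i) (![a, b, c, d] j) ↔ _
    fin_cases i <;> fin_cases j <;>
      first
      | exact iff_of_true (by simp [hab, hbc, hcd, hda, hab.symm, hbc.symm, hcd.symm, hda.symm])
          (by decide)
      | exact iff_of_false (by simp [hac, hbd, hca, hdb]) (by decide)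

/-- A set of vertices in which every vertex is the middle of five consecutive vertices of a
long induced cycle. -/
def Holey (G : SimpleGraph V) (S : Set V) : Prop :=
  S.Nonempty ∧ ∀ q ∈ S, ∃ o ∈ S, ∃ p ∈ S, ∃ r ∈ S, ∃ s ∈ S,
    G.Adj o p ∧ G.Adj p q ∧ G.Adj q r ∧ G.Adj r s ∧
    ¬ G.Adj o q ∧ ¬ G.Adj o r ∧ ¬ G.Adj p r ∧ ¬ G.Adj p s ∧ ¬ G.Adj q s

/-- The structure of an induced five-cycle. -/
structure C5 (G : SimpleGraph V) (a b c d e : V) : Prop where
  ab : G.Adj a b
  bc : G.Adj b c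
  cd : G.Adj c d
  de : G.Adj d e
  ea : G.Adj e a
  ac : ¬ G.Adj a c
  ad : ¬ G.Adj a d
  bd : ¬ G.Adj b d
  be : ¬ G.Adj b e
  ce : ¬ G.Adj c e

lemma C5.rot {a b c d e : V} (h : C5 G a b c d e) : C5 G b c d e a :=
  ⟨h.bc, h.cd, h.de, h.ea, h.ab, h.bd, h.be, h.ce, fun x => h.ac x.symm, fun x => h.ad x.symm⟩

/-- The structure of an induced six-cycle. -/
structure C6 (G : SimpleGraph V) (a b c d e f : V) : Prop where
  ab : G.Adj a b
  bc : G.Adj b c
  cd : G.Adj c d
  de : G.Adj d e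
  ef : G.Adj e f
  fa : G.Adj f a
  ac : ¬ G.Adj a c
  ad : ¬ G.Adj a d
  ae : ¬ G.Adj a e
  bd : ¬ G.Adj b d
  be : ¬ G.Adj b e
  bf : ¬ G.Adj b f
  ce : ¬ G.Adj c e
  cf : ¬ G.Adj c f
  df : ¬ G.Adj d f

/-- Class `T₁`: the vertices that look like `a` to the cycle `a b c d e`. -/
def T (G : SimpleGraph V) (b c d e x : V) : Prop :=
  G.Adj x e ∧ G.Adj x b ∧ ¬ G.Adj x c ∧ ¬ G.Adj x d

/-- Class `B₁`: adjacent to exactly `a` and `b`. -/
def B (G : SimpleGraph V) (a b c d e x : V) : Prop :=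
  G.Adj x a ∧ G.Adj x b ∧ ¬ G.Adj x c ∧ ¬ G.Adj x d ∧ ¬ G.Adj x e

/-- Class `A`: complete to the cycle. -/
def A (G : SimpleGraph V) (a b c d e x : V) : Prop :=
  G.Adj x a ∧ G.Adj x b ∧ G.Adj x c ∧ G.Adj x d ∧ G.Adj x e

/-- Classification of the vertices with respect to an induced five-cycle. -/
lemma classify (hP : NoP G) (hC : NoC G) {a b c d e : V} (h : C5 G a b c d e) (x : V) :
    A G a b c d e x ∨
    T G b c d e x ∨ T G c d e a x ∨ T G d e a b x ∨ T G e a b c x ∨ T G a b c d x ∨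
    B G a b c d e x ∨ B G b c d e a x ∨ B G c d e a b x ∨ B G d e a b c x ∨ B G e a b c d x := by
  have hab := h.ab
  have hbc := h.bc
  have hcd := h.cd
  have hde := h.de
  have hea := h.ea
  have hac := h.ac
  have had := h.ad
  have hbd := h.bd
  have hbe := h.be
  have hce := h.ce
  have hba := hab.symm
  have hcb := hbc.symm
  have hdc := hcd.symm
  have hed := hde.symm
  have hae := hea.symm
  have hca : ¬ G.Adj c a := fun h => hac h.symm
  have hda : ¬ G.Adj d a := fun h => had h.symm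
  have hdb : ¬ G.Adj d b := fun h => hbd h.symm
  have heb : ¬ G.Adj e b := fun h => hbe h.symm
  have hec : ¬ G.Adj e c := fun h => hce h.symm
  have nac : a ≠ c := by rintro rfl; exact had hcd
  have nbd : b ≠ d := by rintro rfl; exact hbe hde
  have nce : c ≠ e := by rintro rfl; exact hac hea.symm
  have nda : d ≠ a := by rintro rfl; exact hbd hab.symm
  have neb : e ≠ b := by rintro rfl; exact hce hbc.symm
  have cl1 : G.Adj x e → G.Adj x b → ¬ G.Adj x a → ¬ G.Adj x c ∧ ¬ G.Adj x d :=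
    fun h1 h2 h3 => by
      by_cases hne : x = a
      · subst hne; exact ⟨hac, had⟩
      · exact (hC x e a b hne neb h1 hea hab h2.symm h3 heb).elim
  have cl2 : G.Adj x a → G.Adj x c → ¬ G.Adj x b → ¬ G.Adj x d ∧ ¬ G.Adj x e :=
    fun h1 h2 h3 => by
      by_cases hne : x = b
      · subst hne; exact ⟨hbd, hbe⟩
      · exact (hC x a b c hne nac h1 hab hbc h2.symm h3 hac).elim
  have cl3 : G.Adj x b → G.Adj x d → ¬ G.Adj x c → ¬ G.Adj x e ∧ ¬ G.Adj x a :=
    fun h1 h2 h3 => by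
      by_cases hne : x = c
      · subst hne; exact ⟨hce, hca⟩
      · exact (hC x b c d hne nbd h1 hbc hcd h2.symm h3 hbd).elim
  have cl4 : G.Adj x c → G.Adj x e → ¬ G.Adj x d → ¬ G.Adj x a ∧ ¬ G.Adj x b :=
    fun h1 h2 h3 => by
      by_cases hne : x = d
      · subst hne; exact ⟨hda, hdb⟩
      · exact (hC x c d e hne nce h1 hcd hde h2.symm h3 hce).elim
  have cl5 : G.Adj x d → G.Adj x a → ¬ G.Adj x e → ¬ G.Adj x b ∧ ¬ G.Adj x c :=
    fun h1 h2 h3 => by
      by_cases hne : x = e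
      · subst hne; exact ⟨heb, hec⟩
      · exact (hC x d e a hne nda h1 hde hea h2.symm h3 hda).elim
  have p1 := hP a b c d x hab hbc hcd hac had hbd
  have p2 := hP b c d e x hbc hcd hde hbd hbe hce
  have p3 := hP c d e a x hcd hde hea hce hca hda
  have p4 := hP d e a b x hde hea hab hda hdb heb
  have p5 := hP e a b c x hea hab hbc heb hec hac
  unfold A T B
  clear hP hC h hab hbc hcd hde hea hac had hbd hbe hce hba hcb hdc hed hae hca hda hdb heb hec
    nac nbd nce nda neb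
  by_cases xa : G.Adj x a <;> by_cases xb : G.Adj x b <;> by_cases xc : G.Adj x c <;>
    by_cases xd : G.Adj x d <;> by_cases xe : G.Adj x e <;>
    simp only [xa, xb, xc, xd, xe, not_true_eq_false, not_false_eq_true, true_implies,
      false_implies, imp_false, and_true, and_false, true_and, false_and, or_true, true_or,
      or_false, false_or, and_self] at *

/-! ### Facts about the classes -/

section C5facts

variable {a b c d e : V}

lemma C5.nac (h : C5 G a b c d e) : a ≠ c := by rintro rfl; exact h.ad h.cd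
lemma C5.nbe (h : C5 G a b c d e) : b ≠ e := by rintro rfl; exact h.ce h.bc.symm
lemma C5.nbd (h : C5 G a b c d e) : b ≠ d := h.rot.nac
lemma C5.nce (h : C5 G a b c d e) : c ≠ e := h.rot.rot.nac
lemma C5.nad (h : C5 G a b c d e) : a ≠ d := h.rot.rot.rot.nac.symm

lemma T_clique (hC : NoC G) (h : C5 G a b c d e) {x y : V} (hx : T G b c d e x)
    (hy : T G b c d e y) (hne : x ≠ y) : G.Adj x y := by
  by_contra hn
  exact hC x e y b hne h.nbe.symm hx.1 hy.1.symm hy.2.1 hx.2.1.symm hn (fun k => h.be k.symm)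

lemma T13 (hC : NoC G) (h : C5 G a b c d e) {x y : V} (hx : T G b c d e x)
    (hy : T G d e a b y) : ¬ G.Adj x y := by
  intro hn
  have hxd : x ≠ d := by rintro rfl; exact h.bd hx.2.1.symm
  have hye : y ≠ e := by rintro rfl; exact h.be hy.1.symm
  exact hC x y d e hxd hye hn hy.2.1 h.de hx.1.symm hx.2.2.2 hy.2.2.1

lemma A_T (hC : NoC G) (h : C5 G a b c d e) {x y : V} (hx : A G a b c d e x)
    (hy : T G b c d e y) : G.Adj x y := by
  by_contra hn
  have hxy : x ≠ y := by rintro rfl; exact hy.2.2.1 hx.2.2.1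
  exact hC x b y e hxy h.nbe hx.2.1 hy.2.1.symm hy.1 hx.2.2.2.2.symm hn h.be

lemma A_clique (hC : NoC G) (h : C5 G a b c d e) {x y : V} (hx : A G a b c d e x)
    (hy : A G a b c d e y) (hne : x ≠ y) : G.Adj x y := by
  by_contra hn
  exact hC x a y c hne h.nac hx.1 hy.1.symm hy.2.2.1 hx.2.2.1.symm hn h.ac

lemma A_rot {x : V} (hx : A G a b c d e x) : A G b c d e a x :=
  ⟨hx.2.1, hx.2.2.1, hx.2.2.2.1, hx.2.2.2.2, hx.1⟩

lemma B1_T1 (hP : NoP G) (h : C5 G a b c d e) {x y : V} (hx : B G a b c d e x)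
    (hy : T G b c d e y) : G.Adj x y := by
  by_contra hn
  exact hP c d e y x h.cd h.de hy.1.symm h.ce (fun k => hy.2.2.1 k.symm)
    (fun k => hy.2.2.2 k.symm) hx.2.2.1 hx.2.2.2.1 hx.2.2.2.2 hn

lemma B1_T2 (hP : NoP G) (h : C5 G a b c d e) {x y : V} (hx : B G a b c d e x)
    (hy : T G c d e a y) : G.Adj x y := by
  by_contra hn
  exact hP y c d e x hy.2.1 h.cd h.de hy.2.2.1 hy.2.2.2 h.ce hn hx.2.2.1 hx.2.2.2.1 hx.2.2.2.2

lemma B1_T4 (hC : NoC G) (h : C5 G a b c d e) {x y : V} (hx : B G a b c d e x)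
    (hy : T G e a b c y) : ¬ G.Adj x y := by
  intro hn
  have hxc : x ≠ c := by rintro rfl; exact h.ac hx.1.symm
  have hyb : y ≠ b := by rintro rfl; exact h.be hy.2.1
  exact hC x y c b hxc hyb hn hy.1 h.bc.symm hx.2.1.symm hx.2.2.1 hy.2.2.2

lemma B1_B2 (hP : NoP G) (h : C5 G a b c d e) {x y : V} (hx : B G a b c d e x)
    (hy : B G b c d e a y) : G.Adj x y := by
  by_contra hn
  exact hP x a e d y hx.1 h.ea.symm h.de.symm hx.2.2.2.2 hx.2.2.2.1 h.ad
    (fun k => hn k.symm) hy.2.2.2.2 hy.2.2.2.1 hy.2.2.1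

lemma B1_B3 (hP : NoP G) (hC : NoC G) (h : C5 G a b c d e) {x y : V} (hx : B G a b c d e x)
    (hy : B G c d e a b y) : False := by
  have hxc : x ≠ c := by rintro rfl; exact h.ac hx.1.symm
  have hby : b ≠ y := by rintro rfl; exact h.bd hy.2.1
  by_cases hn : G.Adj x y
  · exact hC x b c y hxc hby hx.2.1 h.bc hy.1.symm hn.symm hx.2.2.1 (fun k => hy.2.2.2.2 k.symm)
  · exact hP x b c y e hx.2.1 h.bc hy.1.symm hx.2.2.1 hn (fun k => hy.2.2.2.2 k.symm)
      (fun k => hx.2.2.2.2 k.symm) (fun k => h.be k.symm) (fun k => h.ce k.symm)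
      (fun k => hy.2.2.1 k.symm)

end C5facts

/-! ### Eliminating classes from long induced cycles -/

lemma elim {S : Set V} (hS : Holey G S) {X Y : V → Prop}
    (hX : ∀ x y, X x → X y → x ≠ y → G.Adj x y) (hY : ∀ x y, Y x → Y y → x ≠ y → G.Adj x y)
    (hXY : ∀ x ∈ S, X x → ∀ y ∈ S, G.Adj x y → X y ∨ Y y) : ∀ q ∈ S, ¬ X q := by
  intro q hq hXq
  obtain ⟨o, ho, p, hp, r, hr, s, hs, hop, hpq, hqr, hrs, noq, nor, npr, nps, nqs⟩ := hS.2 q hq
  have doq : o ≠ q := by rintro rfl; exact nor hqr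
  have dpr : p ≠ r := by rintro rfl; exact nps hrs
  have dqs : q ≠ s := by rintro rfl; exact nps hpq
  have dor : o ≠ r := by rintro rfl; exact noq hqr.symm
  have dps : p ≠ s := by rintro rfl; exact nqs hpq.symm
  rcases hXY q hq hXq p hp hpq.symm with Xp | Yp
  · rcases hXY p hp Xp o ho hop.symm with Xo | Yo
    · exact noq (hX o q Xo hXq doq)
    · rcases hXY q hq hXq r hr hqr with Xr | Yr
      · exact npr (hX p r Xp Xr dpr)
      · exact nor (hY o r Yo Yr dor)
  · rcases hXY q hq hXq r hr hqr with Xr | Yr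
    · rcases hXY r hr Xr s hs hrs with Xs | Ys
      · exact nqs (hX q s hXq Xs dqs)
      · exact nps (hY p s Yp Ys dps)
    · exact npr (hY p r Yp Yr dpr)

/-- Elimination of a class `X` whose outside neighbours lie in `Y ∪ Z`, where `Y` is a clique,
`Y` is complete to `Z`, and nonadjacent members of `Z` are controlled by two outside vertices. -/
lemma elim2 (hP : NoP G) (hC : NoC G) {S : Set V} (hS : Holey G S) {X Y Z : V → Prop} {u w : V}
    (hX : ∀ x y, X x → X y → x ≠ y → G.Adj x y) (hY : ∀ x y, Y x → Y y → x ≠ y → G.Adj x y)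
    (hYZ : ∀ x y, Y x → Z y → G.Adj x y)
    (hXY : ∀ x ∈ S, X x → ∀ y ∈ S, G.Adj x y → X y ∨ Y y ∨ Z y)
    (uZ : ∀ z, Z z → G.Adj u z) (uX : ∀ x, X x → ¬ G.Adj u x ∧ x ≠ u)
    (wZ : ∀ z, Z z → ¬ G.Adj w z) (wX : ∀ x, X x → ¬ G.Adj w x) : ∀ q ∈ S, ¬ X q := by
  intro q hq hXq
  obtain ⟨o, ho, p, hp, r, hr, s, hs, hop, hpq, hqr, hrs, noq, nor, npr, nps, nqs⟩ := hS.2 q hq
  have doq : o ≠ q := by rintro rfl; exact nor hqr
  have dpr : p ≠ r := by rintro rfl; exact nps hrs
  have dqs : q ≠ s := by rintro rfl; exact nps hpq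
  have dor : o ≠ r := by rintro rfl; exact noq hqr.symm
  have dps : p ≠ s := by rintro rfl; exact nqs hpq.symm
  have key : ∀ x y, (Y x ∨ Z x) → (Y y ∨ Z y) → ¬ G.Adj x y → x ≠ y → Z x ∧ Z y := by
    rintro x y (Yx | Zx) (Yy | Zy) hn hne
    · exact (hn (hY x y Yx Yy hne)).elim
    · exact (hn (hYZ x y Yx Zy)).elim
    · exact (hn (hYZ y x Yy Zx).symm).elim
    · exact ⟨Zx, Zy⟩
  by_cases Xp : X p
  · have Xo : ¬ X o := fun k => noq (hX o q k hXq doq)
    have Xr : ¬ X r := fun k => npr (hX p r Xp k dpr)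
    have ho' : Y o ∨ Z o := (hXY p hp Xp o ho hop.symm).resolve_left Xo
    have hr' : Y r ∨ Z r := (hXY q hq hXq r hr hqr).resolve_left Xr
    obtain ⟨Zo, Zr⟩ := key o r ho' hr' nor dor
    exact hP o p q r w hop hpq hqr noq nor npr (wZ o Zo) (wX p Xp) (wX q hXq) (wZ r Zr)
  · have hp' : Y p ∨ Z p := (hXY q hq hXq p hp hpq.symm).resolve_left Xp
    by_cases Xr : X r
    · have Xs : ¬ X s := fun k => nqs (hX q s hXq k dqs)
      have hs' : Y s ∨ Z s := (hXY r hr Xr s hs hrs).resolve_left Xs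
      obtain ⟨Zp, Zs⟩ := key p s hp' hs' nps dps
      exact hP p q r s w hpq hqr hrs npr nps nqs (wZ p Zp) (wX q hXq) (wX r Xr) (wZ s Zs)
    · have hr' : Y r ∨ Z r := (hXY q hq hXq r hr hqr).resolve_left Xr
      obtain ⟨Zp, Zr⟩ := key p r hp' hr' npr dpr
      exact hC q p u r (uX q hXq).2 dpr hpq.symm (uZ p Zp).symm (uZ r Zr) hqr.symm
        (fun k => (uX q hXq).1 k.symm) npr

/-! ### The two cases with a five-cycle -/

/-- The conclusion in elementary form. -/
def Concl (G : SimpleGraph V) : Prop :=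
  ∃ K : Set V, G.IsClique K ∧ ∀ S : Set V, Holey G S → (∀ x ∈ S, x ∉ K) → False

lemma caseI (hP : NoP G) (hC : NoC G) {a b c d e : V} (h : C5 G a b c d e)
    (n2 : ∀ x, ¬ B G b c d e a x) (n3 : ∀ x, ¬ B G c d e a b x)
    (n4 : ∀ x, ¬ B G d e a b c x) (n5 : ∀ x, ¬ B G e a b c d x) : Concl G := by
  refine ⟨{x | T G e a b c x ∨ A G a b c d e x}, ?_, ?_⟩
  · rintro x (hx | hx) y (hy | hy) hne
    · exact T_clique hC h.rot.rot.rot hx hy hne
    · exact (A_T hC h.rot.rot.rot (A_rot (A_rot (A_rot hy))) hx).symm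
    · exact A_T hC h.rot.rot.rot (A_rot (A_rot (A_rot hx))) hy
    · exact A_clique hC h hx hy hne
  · intro S hS hK
    have cl : ∀ x ∈ S, T G b c d e x ∨ T G c d e a x ∨ T G d e a b x ∨ T G a b c d x ∨
        B G a b c d e x := by
      intro x hx
      have hx' := hK x hx
      have hT : ¬ T G e a b c x := fun k => hx' (Or.inl k)
      have hA : ¬ A G a b c d e x := fun k => hx' (Or.inr k)
      rcases classify hP hC h x with k | k | k | k | k | k | k | k | k | k | k
      · exact (hA k).elim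
      · exact Or.inl k
      · exact Or.inr (Or.inl k)
      · exact Or.inr (Or.inr (Or.inl k))
      · exact (hT k).elim
      · exact Or.inr (Or.inr (Or.inr (Or.inl k)))
      · exact Or.inr (Or.inr (Or.inr (Or.inr k)))
      · exact (n2 x k).elim
      · exact (n3 x k).elim
      · exact (n4 x k).elim
      · exact (n5 x k).elim
    -- no `T₃`
    have e3 : ∀ q ∈ S, ¬ T G d e a b q := by
      refine elim2 hP hC hS (X := T G d e a b) (Y := T G c d e a) (Z := B G a b c d e)
        (u := a) (w := e) ?_ ?_ ?_ ?_ ?_ ?_ ?_ ?_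
      · intro x y hx hy hne; exact T_clique hC h.rot.rot hx hy hne
      · intro x y hx hy hne; exact T_clique hC h.rot hx hy hne
      · intro x y hx hy; exact (B1_T2 hP h hy hx).symm
      · intro x hx Tx y hy hxy
        rcases cl y hy with k | k | k | k | k
        · exact (T13 hC h k Tx hxy.symm).elim
        · exact Or.inr (Or.inl k)
        · exact Or.inl k
        · exact (T13 hC h.rot.rot Tx k hxy).elim
        · exact Or.inr (Or.inr k)
      · intro z hz; exact hz.1.symm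
      · intro x hx
        refine ⟨fun k => hx.2.2.2 k.symm, ?_⟩
        rintro rfl; exact h.ad hx.2.1
      · intro z hz k; exact hz.2.2.2.2 k.symm
      · intro x hx k; exact hx.2.2.1 k.symm
    -- no `T₅`
    have e5 : ∀ q ∈ S, ¬ T G a b c d q := by
      refine elim2 hP hC hS (X := T G a b c d) (Y := T G b c d e) (Z := B G a b c d e)
        (u := b) (w := c) ?_ ?_ ?_ ?_ ?_ ?_ ?_ ?_
      · intro x y hx hy hne; exact T_clique hC h.rot.rot.rot.rot hx hy hne
      · intro x y hx hy hne; exact T_clique hC h hx hy hne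
      · intro x y hx hy; exact (B1_T1 hP h hy hx).symm
      · intro x hx Tx y hy hxy
        rcases cl y hy with k | k | k | k | k
        · exact Or.inr (Or.inl k)
        · exact (T13 hC h.rot.rot.rot.rot Tx k hxy).elim
        · exact (e3 y hy k).elim
        · exact Or.inl k
        · exact Or.inr (Or.inr k)
      · intro z hz; exact hz.2.1.symm
      · intro x hx
        refine ⟨fun k => hx.2.2.1 k.symm, ?_⟩
        rintro rfl; exact h.bd hx.1
      · intro z hz k; exact hz.2.2.1 k.symm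
      · intro x hx k; exact hx.2.2.2 k.symm
    -- no `B₁`
    have e1 : ∀ q ∈ S, ¬ B G a b c d e q := by
      intro q hq Bq
      have step : ∀ x ∈ S, ∀ y ∈ S, B G a b c d e x → ¬ G.Adj x y → B G a b c d e y := by
        intro x hx y hy Bx hn
        rcases cl y hy with k | k | k | k | k
        · exact (hn (B1_T1 hP h Bx k)).elim
        · exact (hn (B1_T2 hP h Bx k)).elim
        · exact (e3 y hy k).elim
        · exact (e5 y hy k).elim
        · exact k
      obtain ⟨o, ho, p, hp, r, hr, s, hs, hop, hpq, hqr, hrs, noq, nor, npr, nps, nqs⟩ :=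
        hS.2 q hq
      have Bs := step q hq s hs Bq nqs
      have Bp := step s hs p hp Bs (fun k => nps k.symm)
      have Br := step p hp r hr Bp npr
      exact hP p q r s d hpq hqr hrs npr nps nqs (fun k => Bp.2.2.2.1 k.symm)
        (fun k => Bq.2.2.2.1 k.symm) (fun k => Br.2.2.2.1 k.symm) (fun k => Bs.2.2.2.1 k.symm)
    have cl' : ∀ x ∈ S, T G b c d e x ∨ T G c d e a x := by
      intro x hx
      rcases cl x hx with k | k | k | k | k
      · exact Or.inl k
      · exact Or.inr k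
      · exact (e3 x hx k).elim
      · exact (e5 x hx k).elim
      · exact (e1 x hx k).elim
    have f1 : ∀ q ∈ S, ¬ T G b c d e q :=
      elim hS (X := T G b c d e) (Y := T G c d e a) (fun x y hx hy hne => T_clique hC h hx hy hne)
        (fun x y hx hy hne => T_clique hC h.rot hx hy hne) (fun x _ _ y hy _ => cl' y hy)
    have f2 : ∀ q ∈ S, ¬ T G c d e a q :=
      elim hS (X := T G c d e a) (Y := T G b c d e)
        (fun x y hx hy hne => T_clique hC h.rot hx hy hne)
        (fun x y hx hy hne => T_clique hC h hx hy hne) (fun x _ _ y hy _ => (cl' y hy).symm)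
    obtain ⟨q, hq⟩ := hS.1
    rcases cl' q hq with k | k
    · exact f1 q hq k
    · exact f2 q hq k

lemma caseII (hP : NoP G) (hC : NoC G) {a b c d e : V} (h : C5 G a b c d e) {x₁ x₂ : V}
    (h1 : B G a b c d e x₁) (h2 : B G b c d e a x₂) : Concl G := by
  have B1c : ∀ x y, B G a b c d e x → B G a b c d e y → x ≠ y → G.Adj x y := by
    intro x y hx hy hne
    by_contra hn
    have : a ≠ x₂ := by rintro rfl; exact h.ac h2.2.1
    exact hC x x₂ y a hne this.symm (B1_B2 hP h hx h2) (B1_B2 hP h hy h2).symm hy.1 hx.1.symm hn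
      h2.2.2.2.2
  have B2c : ∀ x y, B G b c d e a x → B G b c d e a y → x ≠ y → G.Adj x y := by
    intro x y hx hy hne
    by_contra hn
    have : x₁ ≠ c := by rintro rfl; exact h.ac h1.1.symm
    exact hC x x₁ y c hne this (B1_B2 hP h h1 hx).symm (B1_B2 hP h h1 hy) hy.2.1 hx.2.1.symm hn
      h1.2.2.1
  refine ⟨{x | T G c d e a x ∨ B G a b c d e x ∨ B G b c d e a x}, ?_, ?_⟩
  · rintro x (hx | hx | hx) y (hy | hy | hy) hne
    · exact T_clique hC h.rot hx hy hne
    · exact (B1_T2 hP h hy hx).symm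
    · exact (B1_T1 hP h.rot hy hx).symm
    · exact B1_T2 hP h hx hy
    · exact B1c x y hx hy hne
    · exact B1_B2 hP h hx hy
    · exact B1_T1 hP h.rot hx hy
    · exact (B1_B2 hP h hy hx).symm
    · exact B2c x y hx hy hne
  · intro S hS hK
    have cl : ∀ x ∈ S, A G a b c d e x ∨ T G b c d e x ∨ T G d e a b x ∨ T G e a b c x ∨
        T G a b c d x := by
      intro x hx
      have hx' := hK x hx
      rcases classify hP hC h x with k | k | k | k | k | k | k | k | k | k | k
      · exact Or.inl k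
      · exact Or.inr (Or.inl k)
      · exact (hx' (Or.inl k)).elim
      · exact Or.inr (Or.inr (Or.inl k))
      · exact Or.inr (Or.inr (Or.inr (Or.inl k)))
      · exact Or.inr (Or.inr (Or.inr (Or.inr k)))
      · exact (hx' (Or.inr (Or.inl k))).elim
      · exact (hx' (Or.inr (Or.inr k))).elim
      · exact (B1_B3 hP hC h h1 k).elim
      · exact (B1_B3 hP hC h.rot h2 k).elim
      · exact (B1_B3 hP hC h.rot.rot.rot.rot k h2).elim
    have eA : ∀ q ∈ S, ¬ A G a b c d e q := by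
      intro q hq Aq
      obtain ⟨o, ho, p, hp, r, hr, s, hs, hop, hpq, hqr, hrs, noq, nor, npr, nps, nqs⟩ :=
        hS.2 q hq
      have dqs : q ≠ s := by rintro rfl; exact nps hpq
      rcases cl s hs with k | k | k | k | k
      · exact nqs (A_clique hC h Aq k dqs)
      · exact nqs (A_T hC h Aq k)
      · exact nqs (A_T hC h.rot.rot (A_rot (A_rot Aq)) k)
      · exact nqs (A_T hC h.rot.rot.rot (A_rot (A_rot (A_rot Aq))) k)
      · exact nqs (A_T hC h.rot.rot.rot.rot (A_rot (A_rot (A_rot (A_rot Aq)))) k)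
    have c1 : ∀ x y, T G b c d e x → T G b c d e y → x ≠ y → G.Adj x y :=
      fun x y hx hy hne => T_clique hC h hx hy hne
    have c3 : ∀ x y, T G d e a b x → T G d e a b y → x ≠ y → G.Adj x y :=
      fun x y hx hy hne => T_clique hC h.rot.rot hx hy hne
    have c4 : ∀ x y, T G e a b c x → T G e a b c y → x ≠ y → G.Adj x y :=
      fun x y hx hy hne => T_clique hC h.rot.rot.rot hx hy hne
    have c5 : ∀ x y, T G a b c d x → T G a b c d y → x ≠ y → G.Adj x y :=
      fun x y hx hy hne => T_clique hC h.rot.rot.rot.rot hx hy hne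
    have e3 : ∀ q ∈ S, ¬ T G d e a b q := by
      refine elim hS (X := T G d e a b) (Y := T G e a b c) c3 c4 ?_
      intro x hx Tx y hy hxy
      rcases cl y hy with k | k | k | k | k
      · exact (eA y hy k).elim
      · exact (T13 hC h k Tx hxy.symm).elim
      · exact Or.inl k
      · exact Or.inr k
      · exact (T13 hC h.rot.rot Tx k hxy).elim
    have e1 : ∀ q ∈ S, ¬ T G b c d e q := by
      refine elim hS (X := T G b c d e) (Y := T G a b c d) c1 c5 ?_
      intro x hx Tx y hy hxy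
      rcases cl y hy with k | k | k | k | k
      · exact (eA y hy k).elim
      · exact Or.inl k
      · exact (e3 y hy k).elim
      · exact (T13 hC h.rot.rot.rot k Tx hxy.symm).elim
      · exact Or.inr k
    have cl' : ∀ x ∈ S, T G e a b c x ∨ T G a b c d x := by
      intro x hx
      rcases cl x hx with k | k | k | k | k
      · exact (eA x hx k).elim
      · exact (e1 x hx k).elim
      · exact (e3 x hx k).elim
      · exact Or.inl k
      · exact Or.inr k
    have f4 : ∀ q ∈ S, ¬ T G e a b c q :=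
      elim hS (X := T G e a b c) (Y := T G a b c d) c4 c5 (fun x _ _ y hy _ => cl' y hy)
    have f5 : ∀ q ∈ S, ¬ T G a b c d q :=
      elim hS (X := T G a b c d) (Y := T G e a b c) c5 c4 (fun x _ _ y hy _ => (cl' y hy).symm)
    obtain ⟨q, hq⟩ := hS.1
    rcases cl' q hq with k | k
    · exact f4 q hq k
    · exact f5 q hq k

/-- The conclusion whenever there is an induced five-cycle. -/
lemma concl_of_C5 (hP : NoP G) (hC : NoC G) {a b c d e : V} (h : C5 G a b c d e) : Concl G := by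
  by_cases h1 : ∃ x, B G a b c d e x
  · obtain ⟨x₁, h1⟩ := h1
    by_cases h2 : ∃ x, B G b c d e a x
    · obtain ⟨x₂, h2⟩ := h2
      exact caseII hP hC h h1 h2
    · by_cases h5 : ∃ x, B G e a b c d x
      · obtain ⟨x₅, h5⟩ := h5
        exact caseII hP hC h.rot.rot.rot.rot h5 h1
      · exact caseI hP hC h (fun x k => h2 ⟨x, k⟩) (fun x k => B1_B3 hP hC h h1 k)
          (fun x k => B1_B3 hP hC h.rot.rot.rot k h1) (fun x k => h5 ⟨x, k⟩)
  · by_cases h2 : ∃ x, B G b c d e a x
    · obtain ⟨x₂, h2⟩ := h2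
      by_cases h3 : ∃ x, B G c d e a b x
      · obtain ⟨x₃, h3⟩ := h3
        exact caseII hP hC h.rot h2 h3
      · exact caseI hP hC h.rot (fun x k => h3 ⟨x, k⟩) (fun x k => B1_B3 hP hC h.rot h2 k)
          (fun x k => B1_B3 hP hC h.rot.rot.rot.rot k h2) (fun x k => h1 ⟨x, k⟩)
    · by_cases h3 : ∃ x, B G c d e a b x
      · obtain ⟨x₃, h3⟩ := h3
        by_cases h4 : ∃ x, B G d e a b c x
        · obtain ⟨x₄, h4⟩ := h4
          exact caseII hP hC h.rot.rot h3 h4
        · exact caseI hP hC h.rot.rot (fun x k => h4 ⟨x, k⟩)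
            (fun x k => B1_B3 hP hC h.rot.rot h3 k) (fun x k => h1 ⟨x, k⟩)
            (fun x k => h2 ⟨x, k⟩)
      · by_cases h4 : ∃ x, B G d e a b c x
        · obtain ⟨x₄, h4⟩ := h4
          by_cases h5 : ∃ x, B G e a b c d x
          · obtain ⟨x₅, h5⟩ := h5
            exact caseII hP hC h.rot.rot.rot h4 h5
          · exact caseI hP hC h.rot.rot.rot (fun x k => h5 ⟨x, k⟩) (fun x k => h1 ⟨x, k⟩)
              (fun x k => h2 ⟨x, k⟩) (fun x k => h3 ⟨x, k⟩)
        · exact caseI hP hC h.rot.rot.rot.rot (fun x k => h1 ⟨x, k⟩) (fun x k => h2 ⟨x, k⟩)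
            (fun x k => h3 ⟨x, k⟩) (fun x k => h4 ⟨x, k⟩)

/-! ### The case of a six-cycle -/

section C6facts

variable {a b c d e f : V}

lemma C6.rot (h : C6 G a b c d e f) : C6 G b c d e f a :=
  ⟨h.bc, h.cd, h.de, h.ef, h.fa, h.ab, h.bd, h.be, h.bf, h.ce, h.cf, fun k => h.ac k.symm,
    h.df, fun k => h.ad k.symm, fun k => h.ae k.symm⟩

/-- Class `T₁` for a six-cycle. -/
def T6 (G : SimpleGraph V) (b c d e f x : V) : Prop :=
  G.Adj x f ∧ G.Adj x b ∧ ¬ G.Adj x c ∧ ¬ G.Adj x d ∧ ¬ G.Adj x e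

/-- Complete to the six-cycle. -/
def A6 (G : SimpleGraph V) (a b c d e f x : V) : Prop :=
  G.Adj x a ∧ G.Adj x b ∧ G.Adj x c ∧ G.Adj x d ∧ G.Adj x e ∧ G.Adj x f

lemma A6_rot {x : V} (h : A6 G a b c d e f x) : A6 G b c d e f a x :=
  ⟨h.2.1, h.2.2.1, h.2.2.2.1, h.2.2.2.2.1, h.2.2.2.2.2, h.1⟩

lemma C6.nac (h : C6 G a b c d e f) : a ≠ c := by rintro rfl; exact h.ad h.cd

lemma cl6 (hC : NoC G) (h : C6 G a b c d e f) (x : V) :
    G.Adj x a → G.Adj x c → ¬ G.Adj x b → ¬ G.Adj x d ∧ ¬ G.Adj x e ∧ ¬ G.Adj x f := by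
  intro h1 h2 h3
  by_cases hne : x = b
  · subst hne; exact ⟨h.bd, h.be, h.bf⟩
  · exact (hC x a b c hne h.nac h1 h.ab h.bc h2.symm h3 h.ac).elim

lemma cl6' (h5 : ∀ a b c d e : V, ¬ C5 G a b c d e) (h : C6 G a b c d e f) (x : V) :
    G.Adj x a → G.Adj x d → ¬ G.Adj x b → ¬ G.Adj x c → False := by
  intro h1 h2 h3 h4
  exact h5 x a b c d ⟨h1, h.ab, h.bc, h.cd, h2.symm, h3, h4, h.ac, h.ad, h.bd⟩

lemma classify6 (hP : NoP G) (hC : NoC G) (h5 : ∀ a b c d e : V, ¬ C5 G a b c d e)
    (h : C6 G a b c d e f) (x : V) :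
    A6 G a b c d e f x ∨
    T6 G b c d e f x ∨ T6 G c d e f a x ∨ T6 G d e f a b x ∨ T6 G e f a b c x ∨
    T6 G f a b c d x ∨ T6 G a b c d e x := by
  have cl1 := cl6 hC h x
  have cl2 := cl6 hC h.rot x
  have cl3 := cl6 hC h.rot.rot x
  have cl4 := cl6 hC h.rot.rot.rot x
  have cl5 := cl6 hC h.rot.rot.rot.rot x
  have cl6 := cl6 hC h.rot.rot.rot.rot.rot x
  have dl1 := cl6' h5 h x
  have dl2 := cl6' h5 h.rot x
  have dl3 := cl6' h5 h.rot.rot x
  have dl4 := cl6' h5 h.rot.rot.rot x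
  have dl5 := cl6' h5 h.rot.rot.rot.rot x
  have dl6 := cl6' h5 h.rot.rot.rot.rot.rot x
  have p1 := hP a b c d x h.ab h.bc h.cd h.ac h.ad h.bd
  have p2 := hP b c d e x h.bc h.cd h.de h.bd h.be h.ce
  have p3 := hP c d e f x h.cd h.de h.ef h.ce h.cf h.df
  have p4 := hP d e f a x h.de h.ef h.fa h.df (fun k => h.ad k.symm) (fun k => h.ae k.symm)
  have p5 := hP e f a b x h.ef h.fa h.ab (fun k => h.ae k.symm) (fun k => h.be k.symm)
    (fun k => h.bf k.symm)
  have p6 := hP f a b c x h.fa h.ab h.bc (fun k => h.bf k.symm) (fun k => h.cf k.symm) h.ac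
  unfold A6 T6
  clear hP hC h h5
  by_cases xa : G.Adj x a <;> by_cases xb : G.Adj x b <;> by_cases xc : G.Adj x c <;>
    by_cases xd : G.Adj x d <;> by_cases xe : G.Adj x e <;> by_cases xf : G.Adj x f <;>
    simp only [xa, xb, xc, xd, xe, xf, not_true_eq_false, not_false_eq_true, true_implies,
      false_implies, imp_false, and_true, and_false, true_and, false_and, or_true, true_or,
      or_false, false_or, and_self] at *

lemma T6_clique (hC : NoC G) (h : C6 G a b c d e f) {x y : V} (hx : T6 G b c d e f x)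
    (hy : T6 G b c d e f y) (hne : x ≠ y) : G.Adj x y := by
  by_contra hn
  exact hC x f y b hne h.rot.rot.rot.rot.rot.nac hx.1 hy.1.symm hy.2.1 hx.2.1.symm hn
    (fun k => h.bf k.symm)

lemma A6_T (hC : NoC G) (h : C6 G a b c d e f) {x y : V} (hx : A6 G a b c d e f x)
    (hy : T6 G b c d e f y) : G.Adj x y := by
  by_contra hn
  have hxy : x ≠ y := by rintro rfl; exact hy.2.2.1 hx.2.2.1
  exact hC x b y f hxy h.rot.rot.rot.rot.rot.nac.symm hx.2.1 hy.2.1.symm hy.1
    hx.2.2.2.2.2.symm hn h.bf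

lemma A6_clique (hC : NoC G) (h : C6 G a b c d e f) {x y : V} (hx : A6 G a b c d e f x)
    (hy : A6 G a b c d e f y) (hne : x ≠ y) : G.Adj x y := by
  by_contra hn
  exact hC x a y c hne h.nac hx.1 hy.1.symm hy.2.2.1 hx.2.2.1.symm hn h.ac

lemma T6_13 (h5 : ∀ a b c d e : V, ¬ C5 G a b c d e)
    (h : C6 G a b c d e f) {x y : V} (hx : T6 G b c d e f x)
    (hy : T6 G d e f a b y) : ¬ G.Adj x y := by
  intro hn
  exact h5 x y d e f ⟨hn, hy.2.1, h.de, h.ef, hx.1.symm, hx.2.2.2.1, hx.2.2.2.2, hy.2.2.1,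
    hy.2.2.2.1, h.df⟩

lemma T6_14 (hC : NoC G) (h : C6 G a b c d e f) {x y : V} (hx : T6 G b c d e f x)
    (hy : T6 G e f a b c y) : ¬ G.Adj x y := by
  intro hn
  have hxc : x ≠ c := by rintro rfl; exact h.cf hx.1
  have hyb : y ≠ b := by rintro rfl; exact h.be hy.2.1
  exact hC x y c b hxc hyb hn hy.1 h.bc.symm hx.2.1.symm hx.2.2.1 hy.2.2.2.2

/-- The conclusion if there is no induced five-cycle but an induced six-cycle. -/
lemma concl_of_C6 (hP : NoP G) (hC : NoC G) (h5 : ∀ a b c d e : V, ¬ C5 G a b c d e)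
    (h : C6 G a b c d e f) : Concl G := by
  refine ⟨{x | T6 G b c d e f x ∨ A6 G a b c d e f x}, ?_, ?_⟩
  · rintro x (hx | hx) y (hy | hy) hne
    · exact T6_clique hC h hx hy hne
    · exact (A6_T hC h hy hx).symm
    · exact A6_T hC h hx hy
    · exact A6_clique hC h hx hy hne
  · intro S hS hK
    have cl : ∀ x ∈ S, T6 G c d e f a x ∨ T6 G d e f a b x ∨ T6 G e f a b c x ∨
        T6 G f a b c d x ∨ T6 G a b c d e x := by
      intro x hx
      have hx' := hK x hx
      rcases classify6 hP hC h5 h x with k | k | k | k | k | k | k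
      · exact (hx' (Or.inr k)).elim
      · exact (hx' (Or.inl k)).elim
      · exact Or.inl k
      · exact Or.inr (Or.inl k)
      · exact Or.inr (Or.inr (Or.inl k))
      · exact Or.inr (Or.inr (Or.inr (Or.inl k)))
      · exact Or.inr (Or.inr (Or.inr (Or.inr k)))
    have h2' := h.rot
    have h3' := h.rot.rot
    have h4' := h.rot.rot.rot
    have h5' := h.rot.rot.rot.rot
    have h6' := h.rot.rot.rot.rot.rot
    have c2 : ∀ x y, T6 G c d e f a x → T6 G c d e f a y → x ≠ y → G.Adj x y :=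
      fun x y hx hy hne => T6_clique hC h2' hx hy hne
    have c3 : ∀ x y, T6 G d e f a b x → T6 G d e f a b y → x ≠ y → G.Adj x y :=
      fun x y hx hy hne => T6_clique hC h3' hx hy hne
    have c4 : ∀ x y, T6 G e f a b c x → T6 G e f a b c y → x ≠ y → G.Adj x y :=
      fun x y hx hy hne => T6_clique hC h4' hx hy hne
    have c5 : ∀ x y, T6 G f a b c d x → T6 G f a b c d y → x ≠ y → G.Adj x y :=
      fun x y hx hy hne => T6_clique hC h5' hx hy hne
    have c6 : ∀ x y, T6 G a b c d e x → T6 G a b c d e y → x ≠ y → G.Adj x y :=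
      fun x y hx hy hne => T6_clique hC h6' hx hy hne
    -- nonadjacencies: 2-4, 3-5, 4-6, 6-2 and 2-5, 3-6
    have e2 : ∀ q ∈ S, ¬ T6 G c d e f a q := by
      refine elim hS (X := T6 G c d e f a) (Y := T6 G d e f a b) c2 c3 ?_
      intro x hx Tx y hy hxy
      rcases cl y hy with k | k | k | k | k
      · exact Or.inl k
      · exact Or.inr k
      · exact (T6_13 h5 h2' Tx k hxy).elim
      · exact (T6_14 hC h2' Tx k hxy).elim
      · exact (T6_13 h5 h6' k Tx hxy.symm).elim
    have e6 : ∀ q ∈ S, ¬ T6 G a b c d e q := by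
      refine elim hS (X := T6 G a b c d e) (Y := T6 G f a b c d) c6 c5 ?_
      intro x hx Tx y hy hxy
      rcases cl y hy with k | k | k | k | k
      · exact (e2 y hy k).elim
      · exact (T6_14 hC h3' k Tx hxy.symm).elim
      · exact (T6_13 h5 h4' k Tx hxy.symm).elim
      · exact Or.inr k
      · exact Or.inl k
    have e3 : ∀ q ∈ S, ¬ T6 G d e f a b q := by
      refine elim hS (X := T6 G d e f a b) (Y := T6 G e f a b c) c3 c4 ?_
      intro x hx Tx y hy hxy
      rcases cl y hy with k | k | k | k | k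
      · exact (e2 y hy k).elim
      · exact Or.inl k
      · exact Or.inr k
      · exact (T6_13 h5 h3' Tx k hxy).elim
      · exact (e6 y hy k).elim
    have cl' : ∀ x ∈ S, T6 G e f a b c x ∨ T6 G f a b c d x := by
      intro x hx
      rcases cl x hx with k | k | k | k | k
      · exact (e2 x hx k).elim
      · exact (e3 x hx k).elim
      · exact Or.inl k
      · exact Or.inr k
      · exact (e6 x hx k).elim
    have f4 : ∀ q ∈ S, ¬ T6 G e f a b c q :=
      elim hS (X := T6 G e f a b c) (Y := T6 G f a b c d) c4 c5 (fun x _ _ y hy _ => cl' y hy)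
    have f5 : ∀ q ∈ S, ¬ T6 G f a b c d q :=
      elim hS (X := T6 G f a b c d) (Y := T6 G e f a b c) c5 c4
        (fun x _ _ y hy _ => (cl' y hy).symm)
    obtain ⟨q, hq⟩ := hS.1
    rcases cl' q hq with k | k
    · exact f4 q hq k
    · exact f5 q hq k

end C6facts

/-! ### Long cycles -/

lemma one_ne (m : ℕ) : (1 : Fin (m + 5)) ≠ 0 := by
  intro h
  have h1 := congrArg Fin.val h
  have h3 : (1 : Fin (m + 5)).val = 1 % (m + 5) := rfl
  rw [h3, Nat.mod_eq_of_lt (by omega)] at h1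
  simp at h1

lemma two_ne (m : ℕ) : (2 : Fin (m + 5)) ≠ 0 := by
  intro h
  have h1 := congrArg Fin.val h
  have h3 : (2 : Fin (m + 5)).val = 2 % (m + 5) := rfl
  rw [h3, Nat.mod_eq_of_lt (by omega)] at h1
  simp at h1

lemma three_ne (m : ℕ) : (3 : Fin (m + 5)) ≠ 0 := by
  intro h
  have h1 := congrArg Fin.val h
  have h3 : (3 : Fin (m + 5)).val = 3 % (m + 5) := rfl
  rw [h3, Nat.mod_eq_of_lt (by omega)] at h1
  simp at h1

lemma four_ne (m : ℕ) : (4 : Fin (m + 5)) ≠ 0 := by
  intro h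
  have h1 := congrArg Fin.val h
  have h3 : (4 : Fin (m + 5)).val = 4 % (m + 5) := rfl
  rw [h3, Nat.mod_eq_of_lt (by omega)] at h1
  simp at h1

open Fin.CommRing in
lemma cyc_adj1 (m : ℕ) {i j : Fin (m + 5)} (h : j = i + 1) : (cycleGraph (m + 5)).Adj i j := by
  rw [cycleGraph_adj]; right; rw [h]; ring

open Fin.CommRing in
lemma cyc_adj2 (m : ℕ) {i j : Fin (m + 5)} (h : j = i + 2) : ¬ (cycleGraph (m + 5)).Adj i j := by
  rw [cycleGraph_adj, h]
  rintro (h | h)
  · exact three_ne m (by linear_combination -h)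
  · exact one_ne m (by linear_combination h)

open Fin.CommRing in
lemma cyc_adj3 (m : ℕ) {i j : Fin (m + 5)} (h : j = i + 3) : ¬ (cycleGraph (m + 5)).Adj i j := by
  rw [cycleGraph_adj, h]
  rintro (h | h)
  · exact four_ne m (by linear_combination -h)
  · exact two_ne m (by linear_combination h)

lemma five_ne (m : ℕ) : (5 : Fin (m + 2 + 5)) ≠ 0 := by
  intro h
  have h1 := congrArg Fin.val h
  have h3 : (5 : Fin (m + 2 + 5)).val = 5 % (m + 2 + 5) := rfl
  rw [h3, Nat.mod_eq_of_lt (by omega)] at h1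
  simp at h1

lemma six_ne (m : ℕ) : (6 : Fin (m + 2 + 5)) ≠ 0 := by
  intro h
  have h1 := congrArg Fin.val h
  have h3 : (6 : Fin (m + 2 + 5)).val = 6 % (m + 2 + 5) := rfl
  rw [h3, Nat.mod_eq_of_lt (by omega)] at h1
  simp at h1

open Fin.CommRing in
lemma cyc_adj4 (m : ℕ) {i j : Fin (m + 2 + 5)} (h : j = i + 4) :
    ¬ (cycleGraph (m + 2 + 5)).Adj i j := by
  rw [cycleGraph_adj, h]
  rintro (h | h)
  · exact five_ne m (by linear_combination -h)
  · exact three_ne (m + 2) (by linear_combination h)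

open Fin.CommRing in
lemma cyc_adj5 (m : ℕ) {i j : Fin (m + 2 + 5)} (h : j = i + 5) :
    ¬ (cycleGraph (m + 2 + 5)).Adj i j := by
  rw [cycleGraph_adj, h]
  rintro (h | h)
  · exact six_ne m (by linear_combination -h)
  · exact four_ne (m + 2) (by linear_combination h)

open Fin.CommRing in
lemma holey_of_cycle {K : Set V} (m : ℕ) (g : cycleGraph (m + 5) ↪g G.induce Kᶜ) :
    ∃ S : Set V, Holey G S ∧ ∀ x ∈ S, x ∉ K := by
  refine ⟨Set.range (fun i => (g i).1), ⟨⟨(g 0).1, 0, rfl⟩, ?_⟩, ?_⟩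
  · rintro _ ⟨i, rfl⟩
    have adj : ∀ i j, G.Adj (g i).1 (g j).1 ↔ (cycleGraph (m + 5)).Adj i j := by
      intro i j
      rw [← g.map_rel_iff]; rfl
    refine ⟨_, ⟨i - 2, rfl⟩, _, ⟨i - 1, rfl⟩, _, ⟨i + 1, rfl⟩, _, ⟨i + 2, rfl⟩, ?_, ?_, ?_, ?_, ?_,
      ?_, ?_, ?_, ?_⟩ <;> simp only [adj]
    · exact cyc_adj1 m (by ring)
    · exact cyc_adj1 m (by ring)
    · exact cyc_adj1 m (by ring)
    · exact cyc_adj1 m (by ring)
    · exact cyc_adj2 m (by ring)
    · exact cyc_adj3 m (by ring)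
    · exact cyc_adj2 m (by ring)
    · exact cyc_adj3 m (by ring)
    · exact cyc_adj2 m (by ring)
  · rintro _ ⟨i, rfl⟩
    exact (g i).2

open Fin.CommRing in
lemma no_long (hP : NoP G) {K : Set V} (m : ℕ)
    (g : cycleGraph (m + 2 + 5) ↪g G.induce Kᶜ) : False := by
  have adj : ∀ i j, G.Adj (g i).1 (g j).1 ↔ (cycleGraph (m + 2 + 5)).Adj i j := by
    intro i j
    rw [← g.map_rel_iff]; rfl
  refine hP (g 0).1 (g 1).1 (g 2).1 (g 3).1 (g 5).1 ?_ ?_ ?_ ?_ ?_ ?_ ?_ ?_ ?_ ?_ <;> rw [adj]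
  · exact cyc_adj1 (m + 2) (by ring)
  · exact cyc_adj1 (m + 2) (by ring)
  · exact cyc_adj1 (m + 2) (by ring)
  · exact cyc_adj2 (m + 2) (by ring)
  · exact cyc_adj3 (m + 2) (by ring)
  · exact cyc_adj2 (m + 2) (by ring)
  · exact fun k => cyc_adj5 m (by ring) k.symm
  · exact fun k => cyc_adj4 m (by ring) k.symm
  · exact fun k => cyc_adj3 (m + 2) (by ring) k.symm
  · exact fun k => cyc_adj2 (m + 2) (by ring) k.symm

/-- **Main theorem.**  Let `G` be a graph with no induced subgraph isomorphic to `P₄ + P₁` and no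
induced subgraph isomorphic to `C₄`.  Then there is a clique `K` of `G` such that `G - K` is
chordal, that is, has no induced cycle of length at least four. -/
theorem result {V : Type u} (G : SimpleGraph V)
    (hP : ¬ (pathGraph 4 ⊕g pathGraph 1).IsIndContained G)
    (hC : ¬ (cycleGraph 4).IsIndContained G) :
    ∃ K : Set V, G.IsClique K ∧
      ∀ n : ℕ, 4 ≤ n → ¬ (cycleGraph n).IsIndContained (G.induce Kᶜ) := by
  have hP' := noP_of hP
  have hC' := noC_of hC
  -- reduction to the elementary conclusion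
  have fin : Concl G → ∃ K : Set V, G.IsClique K ∧
      ∀ n : ℕ, 4 ≤ n → ¬ (cycleGraph n).IsIndContained (G.induce Kᶜ) := by
    rintro ⟨K, hK, hS⟩
    refine ⟨K, hK, ?_⟩
    rintro n hn ⟨g⟩
    rcases Nat.eq_or_lt_of_le hn with h4 | h4
    · subst h4
      exact hC ⟨(Embedding.induce Kᶜ).comp g⟩
    · obtain ⟨m, rfl⟩ : ∃ m, n = m + 5 := ⟨n - 5, by omega⟩
      obtain ⟨S, h1, h2⟩ := holey_of_cycle m g
      exact hS S h1 h2
  by_cases h5 : ∃ a b c d e : V, C5 G a b c d e
  · obtain ⟨a, b, c, d, e, h⟩ := h5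
    exact fin (concl_of_C5 hP' hC' h)
  have h5' : ∀ a b c d e : V, ¬ C5 G a b c d e := fun a b c d e h => h5 ⟨a, b, c, d, e, h⟩
  by_cases h6 : ∃ a b c d e f : V, C6 G a b c d e f
  · obtain ⟨a, b, c, d, e, f, h⟩ := h6
    exact fin (concl_of_C6 hP' hC' h5' h)
  refine ⟨∅, Set.pairwise_empty _, ?_⟩
  rintro n hn ⟨g⟩
  rcases Nat.eq_or_lt_of_le hn with h4 | h4
  · subst h4
    exact hC ⟨(Embedding.induce _).comp g⟩
  have adj : ∀ i j, G.Adj (g i).1 (g j).1 ↔ (cycleGraph n).Adj i j := by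
    intro i j
    rw [← g.map_rel_iff]; rfl
  rcases Nat.eq_or_lt_of_le h4 with h4' | h4'
  · have h4'' : n = 5 := h4'.symm
    subst h4''
    refine h5' (g 0).1 (g 1).1 (g 2).1 (g 3).1 (g 4).1 ?_
    constructor <;> rw [adj] <;> decide
  rcases Nat.eq_or_lt_of_le h4' with h4'' | h4''
  · have h7 : n = 6 := h4''.symm
    subst h7
    refine h6 ⟨(g 0).1, (g 1).1, (g 2).1, (g 3).1, (g 4).1, (g 5).1, ?_⟩
    constructor <;> rw [adj] <;> decide
  · obtain ⟨m, rfl⟩ : ∃ m, n = m + 2 + 5 := ⟨n - 7, by omega⟩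
    exact no_long hP' m g

end Pool.Agent.Results.MP_e9ad42_co.CliqueChordal
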